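import Pool.Agent.H15.PolarProof
import Pool.Agent.H15.PolarQ1

/-!
# MP_7b7e09_gt, Q1 and Q2: the polarized partition relation for `ω`-covers
-/

set_option autoImplicit false

namespace Pool.Agent.Results.MP_7b7e09_gt.BothQuestions

open Set Pool.Agent.H15.Polar

/-- Q1: some set of reals satisfies `P` but not `S₁(Ω,Ω)`. Q2: `non(P) = min{𝔡, 𝔲}`. -/
theorem result :
    (∃ X : Set ℝ, PolarizedP X ∧ ¬ S1OmegaOmega X) ∧
    nonP = min dominatingNumber ultrafilterNumber :=
  ⟨⟨Icc 0 1, Q1.polarized_of_compact, Q1.not_S1_Icc⟩, nonP_eq⟩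

end Pool.Agent.Results.MP_7b7e09_gt.BothQuestions
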