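import Mathlib

/-!
# MP_7b7e09_gt, Q1: the polarized partition relation does not imply `S₁(Ω,Ω)`

Every compact space satisfies the polarized partition relation `P`; the unit interval does not
satisfy `S₁(Ω,Ω)`.
-/

set_option autoImplicit false

namespace Pool.Agent.Results.MP_7b7e09_gt.NotEquivalent

open Set MeasureTheory

/-- `𝒰` is an open `ω`-cover of the space `X`: it consists of open subsets of `X`, `X ∉ 𝒰`, and
every finite subset of `X` is contained in a member of `𝒰`. -/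
def IsOmegaCover {X : Type} [TopologicalSpace X] (𝒰 : Set (Set X)) : Prop :=
  (∀ U ∈ 𝒰, IsOpen U) ∧ Set.univ ∉ 𝒰 ∧ ∀ F : Set X, F.Finite → ∃ U ∈ 𝒰, F ⊆ U

/-- The property `P`: for every positive integer `k`, all open `ω`-covers `𝒰₁, 𝒰₂` and every
colouring `f` of `𝒰₁ × 𝒰₂` with `k` colours (written as the restriction of a colouring of all pairs
of sets) there are `ω`-covers `𝒱₁ ⊆ 𝒰₁`, `𝒱₂ ⊆ 𝒰₂` such that `f` takes fewer than 3 values on
`𝒱₁ × 𝒱₂`. -/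
def PolarizedP (X : Type) [TopologicalSpace X] : Prop :=
  ∀ k : ℕ, 0 < k → ∀ 𝒰₁ 𝒰₂ : Set (Set X), IsOmegaCover 𝒰₁ → IsOmegaCover 𝒰₂ →
    ∀ f : Set X → Set X → Fin k, ∃ 𝒱₁ ⊆ 𝒰₁, ∃ 𝒱₂ ⊆ 𝒰₂, IsOmegaCover 𝒱₁ ∧ IsOmegaCover 𝒱₂ ∧
      (Set.image2 f 𝒱₁ 𝒱₂).ncard < 3

/-- The selection principle `S₁(Ω,Ω)`. -/
def S1OmegaOmega (X : Type) [TopologicalSpace X] : Prop :=
  ∀ 𝒰 : ℕ → Set (Set X), (∀ n, IsOmegaCover (𝒰 n)) →
    ∃ U : ℕ → Set X, (∀ n, U n ∈ 𝒰 n) ∧ IsOmegaCover (Set.range U)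

section

variable {X : Type} [TopologicalSpace X]

/-- The filter of subfamilies containing all members of `𝒰` that contain some fixed finite set. -/
def fil (𝒰 : Set (Set X)) : Filter (Set X) where
  sets := {S | ∃ F : Set X, F.Finite ∧ ∀ U ∈ 𝒰, F ⊆ U → U ∈ S}
  univ_sets := ⟨∅, finite_empty, fun _ _ _ => trivial⟩
  sets_of_superset := by
    rintro S T ⟨F, hF, h⟩ hST
    exact ⟨F, hF, fun U hU hFU => hST (h U hU hFU)⟩
  inter_sets := by
    rintro S T ⟨F, hF, h⟩ ⟨G, hG, h'⟩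
    exact ⟨F ∪ G, hF.union hG, fun U hU hFU =>
      ⟨h U hU (subset_union_left.trans hFU), h' U hU (subset_union_right.trans hFU)⟩⟩

theorem fil_neBot {𝒰 : Set (Set X)} (h : IsOmegaCover 𝒰) : (fil 𝒰).NeBot := by
  rw [Filter.neBot_iff]
  intro hbot
  have h0 : (∅ : Set (Set X)) ∈ fil 𝒰 := by rw [hbot]; trivial
  obtain ⟨F, hF, h'⟩ := h0
  obtain ⟨U, hU, hFU⟩ := h.2.2 F hF
  exact h' U hU hFU

theorem cover_of_mem {𝒰 : Set (Set X)} (h : IsOmegaCover 𝒰) (p : Ultrafilter (Set X))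
    (hp : (p : Filter (Set X)) ≤ fil 𝒰) (S : Set (Set X)) (hS : S ∈ (p : Filter (Set X))) :
    IsOmegaCover (𝒰 ∩ S) := by
  refine ⟨fun U hU => h.1 U hU.1, fun hu => h.2.1 hu.1, fun F hF => ?_⟩
  have h1 : {U | U ∈ 𝒰 ∧ F ⊆ U} ∈ (p : Filter (Set X)) :=
    hp ⟨F, hF, fun U hU hFU => ⟨hU, hFU⟩⟩
  obtain ⟨U, hU⟩ := Filter.nonempty_of_mem (Filter.inter_mem h1 hS)
  exact ⟨U, ⟨hU.1.1, hU.2⟩, hU.1.2⟩

theorem exists_colour {α : Type} (p : Ultrafilter α) {k : ℕ} (g : α → Fin k) :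
    ∃ c, {x | g x = c} ∈ (p : Filter α) := by
  have h : (⋃ i ∈ (Set.univ : Set (Fin k)), {x | g x = i}) ∈ p := by
    have : (⋃ i ∈ (Set.univ : Set (Fin k)), {x | g x = i}) = Set.univ := by
      ext x; simp
    rw [this]
    exact Filter.univ_mem
  obtain ⟨c, _, hc⟩ := (Ultrafilter.finite_biUnion_mem_iff Set.finite_univ).1 h
  exact ⟨c, hc⟩

theorem exists_finite_ncover [CompactSpace X] {𝒰 : Set (Set X)} (h : IsOmegaCover 𝒰) (n : ℕ) :
    ∃ 𝒢 : Finset (Set X), (∀ U ∈ 𝒢, U ∈ 𝒰) ∧ ∀ x : Fin n → X, ∃ U ∈ 𝒢, ∀ i, x i ∈ U := by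
  classical
  obtain ⟨t, ht⟩ := (isCompact_univ (X := Fin n → X)).elim_finite_subcover
    (fun U : 𝒰 => {x : Fin n → X | ∀ i, x i ∈ (U : Set X)})
    (by
      intro U
      have : {x : Fin n → X | ∀ i, x i ∈ (U : Set X)} = ⋂ i, (fun x : Fin n → X => x i) ⁻¹' (U : Set X) := by
        ext x; simp
      rw [this]
      exact isOpen_iInter_of_finite fun i => (h.1 U U.2).preimage (continuous_apply i))
    (by
      intro x _
      obtain ⟨U, hU, hxU⟩ := h.2.2 (Set.range x) (Set.finite_range x)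
      rw [Set.mem_iUnion]
      exact ⟨⟨U, hU⟩, fun i => hxU ⟨i, rfl⟩⟩)
  refine ⟨t.image Subtype.val, ?_, fun x => ?_⟩
  · intro U hU
    obtain ⟨V, _, rfl⟩ := Finset.mem_image.1 hU
    exact V.2
  · have := ht (Set.mem_univ x)
    simp only [Set.mem_iUnion] at this
    obtain ⟨U, hU, hx⟩ := this
    exact ⟨U, Finset.mem_image_of_mem _ hU, hx⟩

/-- Every compact space satisfies the polarized partition relation. -/
theorem polarized_of_compact [CompactSpace X] : PolarizedP X := by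
  classical
  intro k _ 𝒰₁ 𝒰₂ h₁ h₂ f
  haveI := fil_neBot h₁
  haveI := fil_neBot h₂
  let p : Ultrafilter (Set X) := Ultrafilter.of (fil 𝒰₁)
  let q : Ultrafilter (Set X) := Ultrafilter.of (fil 𝒰₂)
  have hp : (p : Filter (Set X)) ≤ fil 𝒰₁ := Ultrafilter.of_le _
  have hq : (q : Filter (Set X)) ≤ fil 𝒰₂ := Ultrafilter.of_le _
  have ha : ∀ u, ∃ c, {v | f u v = c} ∈ (q : Filter (Set X)) := fun u => exists_colour q (f u)
  have hb : ∀ v, ∃ c, {u | f u v = c} ∈ (p : Filter (Set X)) :=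
    fun v => exists_colour p (fun u => f u v)
  choose a ha using ha
  choose b hb using hb
  obtain ⟨a0, ha0⟩ := exists_colour p a
  obtain ⟨b0, hb0⟩ := exists_colour q b
  let Good : Finset (Set X) × Finset (Set X) → Prop := fun s =>
    (∀ u ∈ s.1, u ∈ 𝒰₁ ∧ a u = a0) ∧ (∀ v ∈ s.2, v ∈ 𝒰₂ ∧ b v = b0) ∧
      ∀ u ∈ s.1, ∀ v ∈ s.2, f u v = a0 ∨ f u v = b0
  have hstep : ∀ (n : ℕ) (s : Finset (Set X) × Finset (Set X)), Good s → ∃ s', Good s' ∧
      s.1 ⊆ s'.1 ∧ s.2 ⊆ s'.2 ∧ (∀ x : Fin n → X, ∃ U ∈ s'.1, ∀ i, x i ∈ U) ∧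
      (∀ x : Fin n → X, ∃ U ∈ s'.2, ∀ i, x i ∈ U) := by
    rintro n ⟨A, B⟩ ⟨hA, hB, hAB⟩
    have hS1 : {u | a u = a0} ∩ (⋂ v ∈ B, {u | f u v = b0}) ∈ (p : Filter (Set X)) := by
      refine Filter.inter_mem ha0 ((Filter.biInter_finset_mem B).2 fun v hv => ?_)
      have h := hb v
      rw [(hB v hv).2] at h
      exact h
    obtain ⟨G1, hG1, hG1c⟩ := exists_finite_ncover (cover_of_mem h₁ p hp _ hS1) n
    have hA'm : ∀ u ∈ A ∪ G1, u ∈ 𝒰₁ ∧ a u = a0 := by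
      intro u hu
      rcases Finset.mem_union.1 hu with hu | hu
      · exact hA u hu
      · exact ⟨(hG1 u hu).1, (hG1 u hu).2.1⟩
    have hS2 : {v | b v = b0} ∩ (⋂ u ∈ A ∪ G1, {v | f u v = a0}) ∈ (q : Filter (Set X)) := by
      refine Filter.inter_mem hb0 ((Filter.biInter_finset_mem (A ∪ G1)).2 fun u hu => ?_)
      have h := ha u
      rw [(hA'm u hu).2] at h
      exact h
    obtain ⟨G2, hG2, hG2c⟩ := exists_finite_ncover (cover_of_mem h₂ q hq _ hS2) n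
    refine ⟨(A ∪ G1, B ∪ G2), ⟨hA'm, ?_, ?_⟩, Finset.subset_union_left, Finset.subset_union_left,
      ?_, ?_⟩
    · intro v hv
      rcases Finset.mem_union.1 hv with hv | hv
      · exact hB v hv
      · exact ⟨(hG2 v hv).1, (hG2 v hv).2.1⟩
    · intro u hu v hv
      rcases Finset.mem_union.1 hv with hv | hv
      · rcases Finset.mem_union.1 hu with hu | hu
        · exact hAB u hu v hv
        · right
          have := (hG1 u hu).2.2
          simp only [Set.mem_iInter] at this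
          exact this v hv
      · left
        have := (hG2 v hv).2.2
        simp only [Set.mem_iInter] at this
        exact this u hu
    · intro x
      obtain ⟨U, hU, hx⟩ := hG1c x
      exact ⟨U, Finset.mem_union_right _ hU, hx⟩
    · intro x
      obtain ⟨U, hU, hx⟩ := hG2c x
      exact ⟨U, Finset.mem_union_right _ hU, hx⟩
  choose! nx hnx using hstep
  have h0 : Good (∅, ∅) := ⟨by simp, by simp, by simp⟩
  let s : ℕ → Finset (Set X) × Finset (Set X) := fun n => Nat.rec (∅, ∅) (fun n t => nx n t) n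
  have hs : ∀ n, Good (s n) := by
    intro n
    induction n with
    | zero => exact h0
    | succ n ih => exact (hnx n (s n) ih).1
  have hm1 : Monotone (fun n => (s n).1) := monotone_nat_of_le_succ fun n => (hnx n (s n) (hs n)).2.1
  have hm2 : Monotone (fun n => (s n).2) := monotone_nat_of_le_succ fun n => (hnx n (s n) (hs n)).2.2.1
  refine ⟨{u | ∃ n, u ∈ (s n).1}, ?_, {v | ∃ n, v ∈ (s n).2}, ?_, ⟨?_, ?_, ?_⟩, ⟨?_, ?_, ?_⟩, ?_⟩
  · rintro u ⟨n, hn⟩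
    exact ((hs n).1 u hn).1
  · rintro v ⟨n, hn⟩
    exact ((hs n).2.1 v hn).1
  · rintro u ⟨n, hn⟩
    exact h₁.1 u ((hs n).1 u hn).1
  · rintro ⟨n, hn⟩
    exact h₁.2.1 ((hs n).1 _ hn).1
  · intro F hF
    obtain ⟨n, x, _, hx⟩ := hF.fin_param
    obtain ⟨U, hU, hxU⟩ := (hnx n (s n) (hs n)).2.2.2.1 x
    refine ⟨U, ⟨n+1, hU⟩, ?_⟩
    rw [← hx]
    rintro _ ⟨i, rfl⟩
    exact hxU i
  · rintro u ⟨n, hn⟩
    exact h₂.1 u ((hs n).2.1 u hn).1
  · rintro ⟨n, hn⟩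
    exact h₂.2.1 ((hs n).2.1 _ hn).1
  · intro F hF
    obtain ⟨n, x, _, hx⟩ := hF.fin_param
    obtain ⟨U, hU, hxU⟩ := (hnx n (s n) (hs n)).2.2.2.2 x
    refine ⟨U, ⟨n+1, hU⟩, ?_⟩
    rw [← hx]
    rintro _ ⟨i, rfl⟩
    exact hxU i
  · have hsub : Set.image2 f {u | ∃ n, u ∈ (s n).1} {v | ∃ n, v ∈ (s n).2} ⊆ {a0, b0} := by
      rintro _ ⟨u, ⟨m, hm⟩, v, ⟨n, hn⟩, rfl⟩
      exact (hs (max m n)).2.2 u (hm1 (le_max_left m n) hm) v (hm2 (le_max_right m n) hn)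
    have h1 := Set.ncard_le_ncard hsub (Set.toFinite _)
    have h2 : ({a0, b0} : Set (Fin k)).ncard ≤ 2 := Set.ncard_insert_le a0 {b0} |>.trans (by simp)
    omega

end

/-- The unit interval does not satisfy `S₁(Ω,Ω)`. -/
theorem not_S1_Icc : ¬ S1OmegaOmega (Icc (0:ℝ) 1) := by
  intro h
  let ε : ℕ → ENNReal := fun n => 2⁻¹ ^ (n + 2)
  have hε : ∀ n, 0 < ε n := fun n => ENNReal.pow_pos (by simp) _
  have hεsum : ∑' n, ε n < 1 := by
    have h1 : ∑' n, ε n = 2⁻¹ ^ 2 * 2 := by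
      show ∑' n : ℕ, (2⁻¹ : ENNReal) ^ (n + 2) = _
      simp_rw [pow_add]
      rw [ENNReal.tsum_mul_right, ENNReal.tsum_geometric, ENNReal.one_sub_inv_two, inv_inv, mul_comm]
    rw [h1, pow_two, mul_assoc, ENNReal.inv_mul_cancel (by simp) (by simp), mul_one]
    exact ENNReal.inv_lt_one.2 (by norm_num)
  let 𝒰 : ℕ → Set (Set (Icc (0:ℝ) 1)) := fun n => {U | IsOpen U ∧ volume (Subtype.val '' U) < ε n}
  obtain ⟨U, hU, hcov⟩ := h 𝒰 (by
    intro n
    refine ⟨fun U hU => hU.1, fun hu => ?_, fun F hF => ?_⟩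
    · have h1 := hu.2
      rw [Set.image_univ, Subtype.range_coe, Real.volume_Icc] at h1
      have h2 : ε n ≤ 1 := by
        calc ε n ≤ ∑' n, ε n := ENNReal.le_tsum n
          _ ≤ 1 := hεsum.le
      have h3 := lt_of_lt_of_le h1 h2
      simp at h3
    · have h1 : volume ((Subtype.val : Icc (0:ℝ) 1 → ℝ) '' F) < ε n := by
        rw [(hF.image _).measure_zero]
        exact hε n
      obtain ⟨W, hFW, hW, hWε⟩ := Set.exists_isOpen_lt_of_lt _ _ h1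
      refine ⟨Subtype.val ⁻¹' W, ⟨hW.preimage continuous_subtype_val, ?_⟩, fun x hx => hFW ⟨x, hx, rfl⟩⟩
      exact lt_of_le_of_lt (measure_mono (Set.image_preimage_subset _ _)) hWε)
  have hsub : Icc (0:ℝ) 1 ⊆ ⋃ n, Subtype.val '' (U n) := by
    intro x hx
    obtain ⟨_, ⟨n, rfl⟩, hn⟩ := hcov.2.2 {⟨x, hx⟩} (Set.finite_singleton _)
    rw [Set.mem_iUnion]
    exact ⟨n, ⟨x, hx⟩, hn rfl, rfl⟩
  have h1 : volume (Icc (0:ℝ) 1) ≤ ∑' n, ε n :=
    calc volume (Icc (0:ℝ) 1) ≤ volume (⋃ n, Subtype.val '' (U n)) := measure_mono hsub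
      _ ≤ ∑' n, volume ((Subtype.val : Icc (0:ℝ) 1 → ℝ) '' (U n)) := measure_iUnion_le _
      _ ≤ ∑' n, ε n := ENNReal.tsum_le_tsum fun n => (hU n).2.le
  rw [Real.volume_Icc] at h1
  have h2 := lt_of_le_of_lt h1 hεsum
  simp at h2

/-- Every compact space satisfies the polarized relation `P`; in particular the set of reals
`[0,1]` satisfies `P`, but it does not satisfy `S₁(Ω,Ω)`. -/
theorem result :
    (∀ (X : Type) [TopologicalSpace X] [CompactSpace X], PolarizedP X) ∧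
    (∃ X : Set ℝ, PolarizedP X ∧ ¬ S1OmegaOmega X) :=
  ⟨fun _ _ _ => polarized_of_compact, Icc 0 1, polarized_of_compact, not_S1_Icc⟩

end Pool.Agent.Results.MP_7b7e09_gt.NotEquivalent
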